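import Mathlib

set_option autoImplicit false

namespace Pool.Agent.Results.MP_c18ee8_co.LimitSix

/-- The queens graph on the `n × n` board: two distinct squares are adjacent when they share a
row, a column or a diagonal. -/
def queens (n : ℕ) : SimpleGraph (Fin n × Fin n) where
  Adj p q := p ≠ q ∧ (p.1 = q.1 ∨ p.2 = q.2 ∨
    |((p.1 : ℕ) : ℤ) - ((q.1 : ℕ) : ℤ)| = |((p.2 : ℕ) : ℤ) - ((q.2 : ℕ) : ℤ)|)
  symm := ⟨by
    rintro p q ⟨h1, h2⟩
    refine ⟨h1.symm, ?_⟩
    rcases h2 with h | h | h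
    · exact Or.inl h.symm
    · exact Or.inr (Or.inl h.symm)
    · refine Or.inr (Or.inr ?_)
      rw [abs_sub_comm, h, abs_sub_comm]⟩
  loopless := ⟨fun p h => h.1 rfl⟩

/-- The closed neighbourhood `N[v]`. -/
def closedNbhd {V : Type} (G : SimpleGraph V) (v : V) : Set V := {w | w = v ∨ G.Adj v w}

/-- The private neighbourhood `pn(v, S)`: the part of `N[v]` outside all `N[u]`, `u ∈ S`, `u ≠ v`. -/
def privNbhd {V : Type} (G : SimpleGraph V) (v : V) (S : Finset V) : Set V :=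
  {w | w ∈ closedNbhd G v ∧ ∀ u ∈ S, u ≠ v → w ∉ closedNbhd G u}

/-- `S` is irredundant when every member has a nonempty private neighbourhood. -/
def Irredundant {V : Type} (G : SimpleGraph V) (S : Finset V) : Prop :=
  ∀ v ∈ S, (privNbhd G v S).Nonempty

/-- The upper irredundance number: the largest size of an irredundant set. -/
noncomputable def IR {V : Type} (G : SimpleGraph V) : ℕ :=
  sSup {k : ℕ | ∃ S : Finset V, Irredundant G S ∧ S.card = k}

/-- The four coordinates of a square: column, row, diagonal, antidiagonal. -/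
def coord {n : ℕ} (τ : Fin 4) (p : Fin n × Fin n) : ℤ :=
  match τ with
  | 0 => ((p.1 : ℕ) : ℤ)
  | 1 => ((p.2 : ℕ) : ℤ)
  | 2 => ((p.1 : ℕ) : ℤ) - ((p.2 : ℕ) : ℤ)
  | 3 => ((p.1 : ℕ) : ℤ) + ((p.2 : ℕ) : ℤ)

theorem mem_closed {n : ℕ} (v w : Fin n × Fin n) :
    w ∈ closedNbhd (queens n) v ↔ ∃ τ : Fin 4, coord τ w = coord τ v := by
  constructor
  · rintro (rfl | ⟨-, h | h | h⟩)
    · exact ⟨0, rfl⟩
    · exact ⟨0, by simp [coord, h]⟩
    · exact ⟨1, by simp [coord, h]⟩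
    · rcases abs_eq_abs.1 h with h | h
      · exact ⟨2, by simp only [coord]; linarith⟩
      · exact ⟨3, by simp only [coord]; linarith⟩
  · rintro ⟨τ, h⟩
    by_cases hw : w = v
    · exact Or.inl hw
    · refine Or.inr ⟨fun e => hw e.symm, ?_⟩
      fin_cases τ
      · left
        simp only [coord] at h
        exact (Fin.ext (by exact_mod_cast h)).symm
      · right; left
        simp only [coord] at h
        exact (Fin.ext (by exact_mod_cast h)).symm
      · right; right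
        simp only [coord] at h
        rw [abs_eq_abs]; left; linarith
      · right; right
        simp only [coord] at h
        rw [abs_eq_abs]; right; linarith

theorem coord_ext {n : ℕ} {p q : Fin n × Fin n} (h0 : coord 0 p = coord 0 q)
    (h1 : coord 1 p = coord 1 q) : p = q := by
  simp only [coord] at h0 h1
  exact Prod.ext (Fin.ext (by exact_mod_cast h0)) (Fin.ext (by exact_mod_cast h1))

/-! ### Upper bound -/

theorem card_le {n : ℕ} (S : Finset (Fin n × Fin n)) (hS : Irredundant (queens n) S) :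
    S.card ≤ 6 * n := by
  classical
  have h : ∀ v ∈ S, ∃ τ : Fin 4, ∀ u ∈ S, coord τ u = coord τ v → u = v := by
    intro v hv
    obtain ⟨p, hp, hp'⟩ := hS v hv
    obtain ⟨τ, hτ⟩ := (mem_closed v p).1 hp
    refine ⟨τ, fun u hu hc => ?_⟩
    by_contra hne
    exact hp' u hu hne ((mem_closed u p).2 ⟨τ, by rw [hτ, hc]⟩)
  choose! τ hτ using h
  let T : Finset (Fin 4 × ℤ) :=
    (({0} : Finset (Fin 4)) ×ˢ Finset.Ico (0 : ℤ) n) ∪
    (({1} : Finset (Fin 4)) ×ˢ Finset.Ico (0 : ℤ) n) ∪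
    (({2} : Finset (Fin 4)) ×ˢ Finset.Ico (-(n : ℤ)) n) ∪
    (({3} : Finset (Fin 4)) ×ˢ Finset.Ico (0 : ℤ) (2 * n))
  have hT : T.card ≤ 6 * n := by
    refine le_trans (Finset.card_union_le _ _) ?_
    refine le_trans (Nat.add_le_add_right (Finset.card_union_le _ _) _) ?_
    refine le_trans (Nat.add_le_add_right (Nat.add_le_add_right (Finset.card_union_le _ _) _) _) ?_
    simp only [Finset.card_product, Finset.card_singleton, Int.card_Ico]
    omega
  refine le_trans ?_ hT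
  apply Finset.card_le_card_of_injOn (fun v => (τ v, coord (τ v) v))
  · intro v hv
    have hb1 := v.1.isLt
    have hb2 := v.2.isLt
    simp only [T, Finset.coe_union, Set.mem_union, Finset.mem_coe, Finset.mem_product,
      Finset.mem_singleton, Finset.mem_Ico]
    rcases (show τ v = 0 ∨ τ v = 1 ∨ τ v = 2 ∨ τ v = 3 by
      generalize τ v = t; fin_cases t <;> simp) with h | h | h | h
    · rw [h]; simp only [coord]
      left; left; left; exact ⟨by trivial, by omega, by omega⟩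
    · rw [h]; simp only [coord]
      left; left; right; exact ⟨by trivial, by omega, by omega⟩
    · rw [h]; simp only [coord]
      left; right; exact ⟨by trivial, by omega, by omega⟩
    · rw [h]; simp only [coord]
      right; exact ⟨by trivial, by omega, by omega⟩
  · intro v hv u hu huv
    simp only [Prod.mk.injEq] at huv
    obtain ⟨h1, h2⟩ := huv
    rw [← h1] at h2
    exact (hτ v hv u hu h2.symm).symm

/-! ### Residues -/

theorem crt2 {m k : ℕ} (h : Nat.Coprime m k) (r s : ℤ) :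
    ∃ x : ℤ, (m : ℤ) ∣ x - r ∧ (k : ℤ) ∣ x - s := by
  obtain ⟨a, b, hab⟩ := (Nat.isCoprime_iff_coprime.2 h)
  refine ⟨s * (a * m) + r * (b * k), ⟨(s - r) * a, ?_⟩, ⟨(r - s) * b, ?_⟩⟩
  · linear_combination r * hab
  · linear_combination s * hab

theorem crt3 {m k l : ℕ} (h1 : Nat.Coprime m k) (h2 : Nat.Coprime m l) (h3 : Nat.Coprime k l)
    (hm : 0 < m) (hk : 0 < k) (hl : 0 < l) (r s t z : ℤ) :
    ∃ x : ℤ, z ≤ x ∧ x < z + m * k * l ∧ (m : ℤ) ∣ x - r ∧ (k : ℤ) ∣ x - s ∧ (l : ℤ) ∣ x - t := by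
  obtain ⟨y, hy1, hy2⟩ := crt2 h1 r s
  obtain ⟨x, hx1, hx2⟩ := crt2 (Nat.Coprime.mul_left h2 h3) y t
  have hpos : (0 : ℤ) < (m : ℤ) * k * l := by positivity
  refine ⟨z + (x - z) % ((m : ℤ) * k * l), ?_, ?_, ?_, ?_, ?_⟩
  · have := Int.emod_nonneg (x - z) hpos.ne'
    omega
  · have := Int.emod_lt_of_pos (x - z) hpos
    omega
  all_goals
    have hd : z + (x - z) % ((m : ℤ) * k * l) = x - ((m : ℤ) * k * l) * ((x - z) / ((m : ℤ) * k * l)) := by
      have := Int.emod_add_mul_ediv (x - z) ((m : ℤ) * k * l)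
      linarith
    rw [hd]
  · have e1 : (m : ℤ) ∣ x - y := (Dvd.intro (k : ℤ) (by push_cast; rfl)).trans hx1
    have e2 : (m : ℤ) ∣ ((m : ℤ) * k * l) * ((x - z) / ((m : ℤ) * k * l)) :=
      Dvd.dvd.mul_right ⟨(k : ℤ) * l, by ring⟩ _
    have := dvd_sub (dvd_add e1 hy1) e2
    obtain ⟨w, hw⟩ := this
    exact ⟨w, by linear_combination hw⟩
  · have e1 : (k : ℤ) ∣ x - y := (Dvd.intro_left (m : ℤ) (by push_cast; rfl)).trans hx1
    have e2 : (k : ℤ) ∣ ((m : ℤ) * k * l) * ((x - z) / ((m : ℤ) * k * l)) :=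
      Dvd.dvd.mul_right ⟨(m : ℤ) * l, by ring⟩ _
    have := dvd_sub (dvd_add e1 hy2) e2
    obtain ⟨w, hw⟩ := this
    exact ⟨w, by linear_combination hw⟩
  · have e2 : (l : ℤ) ∣ ((m : ℤ) * k * l) * ((x - z) / ((m : ℤ) * k * l)) :=
      Dvd.dvd.mul_right ⟨(m : ℤ) * k, by ring⟩ _
    have := dvd_sub hx2 e2
    obtain ⟨w, hw⟩ := this
    exact ⟨w, by linear_combination hw⟩

theorem half_dvd {m : ℕ} (hm : m % 2 = 1) (x t : ℤ) (h : (m : ℤ) ∣ x - t * (((m + 1) / 2 : ℕ) : ℤ)) :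
    (m : ℤ) ∣ 2 * x - t := by
  have h2 : (2 : ℤ) * (((m + 1) / 2 : ℕ) : ℤ) = m + 1 := by
    have : 2 * ((m + 1) / 2) = m + 1 := by omega
    exact_mod_cast this
  obtain ⟨c, hc⟩ := h
  refine ⟨2 * c + t, ?_⟩
  linear_combination 2 * hc + t * h2

/-- Build a square of the board from integer coordinates. -/
theorem exists_sq {n : ℕ} (x y : ℤ) (hx : 0 ≤ x) (hx' : x < n) (hy : 0 ≤ y) (hy' : y < n) :
    ∃ p : Fin n × Fin n, coord 0 p = x ∧ coord 1 p = y ∧ coord 2 p = x - y ∧ coord 3 p = x + y := by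
  lift x to ℕ using hx
  lift y to ℕ using hy
  exact ⟨(⟨x, by exact_mod_cast hx'⟩, ⟨y, by exact_mod_cast hy'⟩), rfl, rfl, rfl, rfl⟩

/-- The range of line indices used for each direction. -/
def lo (n : ℕ) (P : ℤ) (τ : Fin 4) : ℤ :=
  match τ with
  | 0 => 0
  | 1 => 0
  | 2 => P - n
  | 3 => P

def hi (n : ℕ) (P : ℤ) (τ : Fin 4) : ℤ :=
  match τ with
  | 0 => n
  | 1 => n
  | 2 => n - P
  | 3 => 2 * n - P

theorem exists_pt (m : Fin 4 → ℕ) (hpos : ∀ i, 0 < m i) (hodd : ∀ i, m i % 2 = 1)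
    (hco : ∀ i j, i ≠ j → Nat.Coprime (m i) (m j)) (P : ℤ)
    (hP : P = (m 0 : ℤ) * m 1 * m 2 * m 3) (n : ℕ) (hn : P ≤ n) (ε : ℤ) (τ : Fin 4) (t : ℤ)
    (h1 : lo n P τ ≤ t) (h2 : t < hi n P τ) :
    ∃ p : Fin n × Fin n, coord τ p = t ∧ ∀ σ, σ ≠ τ → (m σ : ℤ) ∣ coord σ p - ε := by
  have q0 : (1 : ℤ) ≤ m 0 := by exact_mod_cast hpos 0
  have q1 : (1 : ℤ) ≤ m 1 := by exact_mod_cast hpos 1
  have q2 : (1 : ℤ) ≤ m 2 := by exact_mod_cast hpos 2
  have q3 : (1 : ℤ) ≤ m 3 := by exact_mod_cast hpos 3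
  have b0 : (m 1 : ℤ) * m 2 * m 3 ≤ P := by
    rw [hP]
    have : (0 : ℤ) ≤ (m 1 : ℤ) * m 2 * m 3 := by positivity
    nlinarith
  have b1 : (m 0 : ℤ) * m 2 * m 3 ≤ P := by
    rw [hP]
    have : (0 : ℤ) ≤ (m 0 : ℤ) * m 2 * m 3 := by positivity
    nlinarith
  have b2 : (m 0 : ℤ) * m 1 * m 3 ≤ P := by
    rw [hP]
    have : (0 : ℤ) ≤ (m 0 : ℤ) * m 1 * m 3 := by positivity
    nlinarith
  have b3 : (m 0 : ℤ) * m 1 * m 2 ≤ P := by
    rw [hP]
    have : (0 : ℤ) ≤ (m 0 : ℤ) * m 1 * m 2 := by positivity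
    nlinarith
  have hP1 : 1 ≤ P := by
    have : (0:ℤ) < P := by rw [hP]; positivity
    omega
  fin_cases τ
  · -- column `x = t`
    simp only [lo, hi] at h1 h2
    obtain ⟨y, hy1, hy2, d1, d2, d3⟩ := crt3 (hco 1 2 (by decide)) (hco 1 3 (by decide))
      (hco 2 3 (by decide)) (hpos 1) (hpos 2) (hpos 3) ε (t - ε) (ε - t) 0
    obtain ⟨p, hp0, hp1, hp2, hp3⟩ := exists_sq (n := n) t y h1 h2 hy1 (by omega)
    refine ⟨p, hp0, fun σ hσ => ?_⟩
    fin_cases σ
    · exact absurd rfl hσ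
    · show (m 1 : ℤ) ∣ coord 1 p - ε
      rw [hp1]; exact d1
    · show (m 2 : ℤ) ∣ coord 2 p - ε
      rw [hp2]
      obtain ⟨w, hw⟩ := d2
      exact ⟨-w, by linear_combination -hw⟩
    · show (m 3 : ℤ) ∣ coord 3 p - ε
      rw [hp3]
      convert d3 using 1; ring
  · simp only [lo, hi] at h1 h2
    obtain ⟨x, hx1, hx2, d1, d2, d3⟩ := crt3 (hco 0 2 (by decide)) (hco 0 3 (by decide))
      (hco 2 3 (by decide)) (hpos 0) (hpos 2) (hpos 3) ε (t + ε) (ε - t) 0
    obtain ⟨p, hp0, hp1, hp2, hp3⟩ := exists_sq (n := n) x t hx1 (by omega) h1 h2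
    refine ⟨p, hp1, fun σ hσ => ?_⟩
    fin_cases σ
    · show (m 0 : ℤ) ∣ coord 0 p - ε
      rw [hp0]; exact d1
    · exact absurd rfl hσ
    · show (m 2 : ℤ) ∣ coord 2 p - ε
      rw [hp2]
      convert d2 using 1; ring
    · show (m 3 : ℤ) ∣ coord 3 p - ε
      rw [hp3]
      convert d3 using 1; ring
  · simp only [lo, hi] at h1 h2
    obtain ⟨x, hx1, hx2, d1, d2, d3⟩ := crt3 (hco 0 1 (by decide)) (hco 0 3 (by decide))
      (hco 1 3 (by decide)) (hpos 0) (hpos 1) (hpos 3) ε (t + ε)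
      ((t + ε) * (((m 3 + 1) / 2 : ℕ) : ℤ)) (max 0 t)
    have e1 : (0 : ℤ) ≤ max 0 t := le_max_left _ _
    have e2 : t ≤ max 0 t := le_max_right _ _
    have e3 : max 0 t ≤ n - P := max_le (by omega) (by omega)
    have e4 : max 0 t - t ≤ n - P := by
      rcases max_cases 0 t with ⟨h, _⟩ | ⟨h, _⟩ <;> omega
    obtain ⟨p, hp0, hp1, hp2, hp3⟩ := exists_sq (n := n) x (x - t) (by omega) (by omega)
      (by omega) (by omega)
    refine ⟨p, by show coord 2 p = t; rw [hp2]; ring, fun σ hσ => ?_⟩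
    fin_cases σ
    · show (m 0 : ℤ) ∣ coord 0 p - ε
      rw [hp0]; exact d1
    · show (m 1 : ℤ) ∣ coord 1 p - ε
      rw [hp1]
      convert d2 using 1; ring
    · exact absurd rfl hσ
    · show (m 3 : ℤ) ∣ coord 3 p - ε
      rw [hp3]
      have := half_dvd (hodd 3) x (t + ε) d3
      convert this using 1; ring
  · simp only [lo, hi] at h1 h2
    obtain ⟨x, hx1, hx2, d1, d2, d3⟩ := crt3 (hco 0 1 (by decide)) (hco 0 2 (by decide))
      (hco 1 2 (by decide)) (hpos 0) (hpos 1) (hpos 2) ε (t - ε)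
      ((t + ε) * (((m 2 + 1) / 2 : ℕ) : ℤ)) (max 0 (t - n + 1))
    have e1 : (0 : ℤ) ≤ max 0 (t - n + 1) := le_max_left _ _
    have e2 : t - n + 1 ≤ max 0 (t - n + 1) := le_max_right _ _
    have e3 : max 0 (t - n + 1) ≤ n - P := max_le (by omega) (by omega)
    have e4 : max 0 (t - n + 1) + P ≤ t + 1 := by
      rcases max_cases 0 (t - n + 1) with ⟨h, _⟩ | ⟨h, _⟩ <;> omega
    obtain ⟨p, hp0, hp1, hp2, hp3⟩ := exists_sq (n := n) x (t - x) (by omega) (by omega)
      (by omega) (by omega)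
    refine ⟨p, by show coord 3 p = t; rw [hp3]; ring, fun σ hσ => ?_⟩
    fin_cases σ
    · show (m 0 : ℤ) ∣ coord 0 p - ε
      rw [hp0]; exact d1
    · show (m 1 : ℤ) ∣ coord 1 p - ε
      rw [hp1]
      obtain ⟨w, hw⟩ := d2
      exact ⟨-w, by linear_combination -hw⟩
    · show (m 2 : ℤ) ∣ coord 2 p - ε
      rw [hp2]
      have := half_dvd (hodd 2) x (t + ε) d3
      convert this using 1; ring
    · exact absurd rfl hσ

/-! ### Counting lines -/

theorem count_res (c : ℤ) (hc : 0 < c) (A B : ℤ) (hAB : A ≤ B) (r : ℤ) :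
    (((Finset.Ico A B).filter (fun t => t ≡ r [ZMOD c])).card : ℝ) ≤ (B - A : ℝ) / c + 1 := by
  have h := Int.Ico_filter_modEq_card A B hc r
  have h' : ((((Finset.Ico A B).filter (fun t => t ≡ r [ZMOD c])).card : ℤ) : ℚ)
      ≤ ((B : ℚ) - A) / c + 1 := by
    rw [h]
    have hc' : (0 : ℚ) < c := by exact_mod_cast hc
    have h0 : (0 : ℚ) ≤ ((B : ℚ) - A) / c + 1 := by
      have : (A : ℚ) ≤ B := by exact_mod_cast hAB
      have : 0 ≤ ((B : ℚ) - A) / c := div_nonneg (by linarith) hc'.le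
      linarith
    have h1 : ((⌈((B : ℚ) - r) / c⌉ - ⌈((A : ℚ) - r) / c⌉ : ℤ) : ℚ) ≤ ((B : ℚ) - A) / c + 1 := by
      push_cast
      have e1 := Int.ceil_lt_add_one (((B : ℚ) - r) / c)
      have e2 := Int.le_ceil (((A : ℚ) - r) / c)
      have e3 : ((B : ℚ) - A) / c = ((B : ℚ) - r) / c - ((A : ℚ) - r) / c := by ring
      linarith
    push_cast
    push_cast at h1
    exact max_le h1 h0
  have : ((((Finset.Ico A B).filter (fun t => t ≡ r [ZMOD c])).card : ℚ) : ℝ)
      ≤ ((((B : ℚ) - A) / c + 1 : ℚ) : ℝ) := by exact_mod_cast h'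
  push_cast at this
  exact this

theorem count_good (c : ℤ) (hc : 2 < c) (A B : ℤ) (hAB : A ≤ B) :
    (B - A : ℝ) - 2 * ((B - A : ℝ) / c + 1) ≤
      (((Finset.Ico A B).filter (fun t => 2 ≤ t % c)).card : ℝ) := by
  have hsub : Finset.Ico A B ⊆ ((Finset.Ico A B).filter (fun t => 2 ≤ t % c)) ∪
      (((Finset.Ico A B).filter (fun t => t ≡ 0 [ZMOD c])) ∪
      ((Finset.Ico A B).filter (fun t => t ≡ 1 [ZMOD c]))) := by
    intro t ht
    have h0 := Int.emod_nonneg t (show c ≠ 0 by omega)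
    rw [Finset.mem_union, Finset.mem_union, Finset.mem_filter, Finset.mem_filter,
      Finset.mem_filter]
    have e0 : (0 : ℤ) % c = 0 := Int.zero_emod c
    have e1 : (1 : ℤ) % c = 1 := Int.emod_eq_of_lt (by omega) (by omega)
    have h3 : 2 ≤ t % c ∨ t % c = 0 ∨ t % c = 1 := by omega
    rcases h3 with h3 | h3 | h3
    · exact Or.inl ⟨ht, h3⟩
    · exact Or.inr (Or.inl ⟨ht, h3.trans e0.symm⟩)
    · exact Or.inr (Or.inr ⟨ht, h3.trans e1.symm⟩)
  have hcard := Finset.card_le_card hsub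
  have hcard2 := le_trans hcard (le_trans (Finset.card_union_le _ _)
    (Nat.add_le_add_left (Finset.card_union_le _ _) _))
  rw [Int.card_Ico] at hcard2
  have hreal : ((B - A : ℤ) : ℝ) ≤ (((Finset.Ico A B).filter (fun t => 2 ≤ t % c)).card : ℝ) +
      ((((Finset.Ico A B).filter (fun t => t ≡ 0 [ZMOD c])).card : ℝ) +
      (((Finset.Ico A B).filter (fun t => t ≡ 1 [ZMOD c])).card : ℝ)) := by
    have h1 : ((B - A : ℤ) : ℝ) ≤ (((B - A).toNat : ℕ) : ℝ) := by
      have : (B - A) ≤ (((B - A).toNat : ℕ) : ℤ) := Int.self_le_toNat _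
      exact_mod_cast this
    refine le_trans h1 ?_
    exact_mod_cast hcard2
  push_cast at hreal
  have g0 := count_res c (by omega) A B hAB 0
  have g1 := count_res c (by omega) A B hAB 1
  linarith

/-! ### The construction -/

theorem construct (m : Fin 4 → ℕ) (hthree : ∀ i, 2 < m i) (hodd : ∀ i, m i % 2 = 1)
    (hco : ∀ i j, i ≠ j → Nat.Coprime (m i) (m j)) (P : ℤ)
    (hP : P = (m 0 : ℤ) * m 1 * m 2 * m 3) (n : ℕ) (hn : P ≤ n) :
    ∃ S : Finset (Fin n × Fin n), Irredundant (queens n) S ∧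
      S.card = ∑ τ : Fin 4, ((Finset.Ico (lo n P τ) (hi n P τ)).filter
        (fun t => 2 ≤ t % (m τ : ℤ))).card := by
  classical
  have hpos : ∀ i, 0 < m i := fun i => by have := hthree i; omega
  set L : Fin 4 → Finset ℤ := fun τ => (Finset.Ico (lo n P τ) (hi n P τ)).filter
        (fun t => 2 ≤ t % (m τ : ℤ)) with hL
  have hv : ∀ (τ : Fin 4) (t : ℤ), t ∈ L τ → ∃ p : Fin n × Fin n, coord τ p = t ∧
      ∀ σ, σ ≠ τ → (m σ : ℤ) ∣ coord σ p - 0 := by
    intro τ t ht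
    have ht' := Finset.mem_filter.1 ht
    have ht'' := Finset.mem_Ico.1 ht'.1
    exact exists_pt m hpos hodd hco P hP n hn 0 τ t ht''.1 ht''.2
  have hp : ∀ (τ : Fin 4) (t : ℤ), t ∈ L τ → ∃ p : Fin n × Fin n, coord τ p = t ∧
      ∀ σ, σ ≠ τ → (m σ : ℤ) ∣ coord σ p - 1 := by
    intro τ t ht
    have ht' := Finset.mem_filter.1 ht
    have ht'' := Finset.mem_Ico.1 ht'.1
    exact exists_pt m hpos hodd hco P hP n hn 1 τ t ht''.1 ht''.2
  have hres : ∀ (τ : Fin 4) (t : ℤ), t ∈ L τ → 2 ≤ t % (m τ : ℤ) := fun τ t ht =>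
    (Finset.mem_filter.1 ht).2
  have hn0 : ∃ p0 : Fin n × Fin n, True := by
    have : 0 < n := by
      have h1 : (0 : ℤ) < P := by
        rw [hP]
        have := hpos 0; have := hpos 1; have := hpos 2; have := hpos 3
        positivity
      omega
    exact ⟨(⟨0, this⟩, ⟨0, this⟩), trivial⟩
  obtain ⟨p0, -⟩ := hn0
  haveI : Nonempty (Fin n × Fin n) := ⟨p0⟩
  choose! v hv1 hv2 using hv
  choose! p hp1 hp2 using hp
  have hinj : Set.InjOn (fun x : (_ : Fin 4) × ℤ => v x.1 x.2)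
      ((Finset.univ.sigma L : Finset ((_ : Fin 4) × ℤ)) : Set ((_ : Fin 4) × ℤ)) := by
    rintro ⟨τ, t⟩ ht ⟨τ', t'⟩ ht' h
    simp only [Finset.coe_sigma, Set.mem_sigma_iff, Finset.mem_coe, Finset.mem_univ, true_and]
      at ht ht' h
    by_cases hτ : τ = τ'
    · subst hτ
      have e1 := hv1 τ t ht
      have e2 := hv1 τ t' ht'
      rw [h, e2] at e1
      rw [e1]
    · exfalso
      have e1 := hv1 τ t ht
      have e2 := hv2 τ' t' ht' τ hτ
      rw [← h, e1, sub_zero] at e2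
      have e3 := hres τ t ht
      rw [Int.emod_eq_zero_of_dvd e2] at e3
      omega
  refine ⟨(Finset.univ.sigma L).image (fun x : (_ : Fin 4) × ℤ => v x.1 x.2), ?_, ?_⟩
  · intro w hw
    obtain ⟨⟨τ, t⟩, ht, rfl⟩ := Finset.mem_image.1 hw
    have ht : t ∈ L τ := (Finset.mem_sigma.1 ht).2
    refine ⟨p τ t, (mem_closed _ _).2 ⟨τ, ?_⟩, ?_⟩
    · show coord τ (p τ t) = coord τ (v τ t)
      rw [hp1 τ t ht, hv1 τ t ht]
    · intro u hu hne hmem
      obtain ⟨⟨τ', t'⟩, ht', rfl⟩ := Finset.mem_image.1 hu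
      have ht' : t' ∈ L τ' := (Finset.mem_sigma.1 ht').2
      obtain ⟨σ, hσ⟩ := (mem_closed _ _).1 hmem
      have hσ : coord σ (p τ t) = coord σ (v τ' t') := hσ
      have hne : v τ' t' ≠ v τ t := hne
      by_cases h1 : σ = τ
      · subst h1
        rw [hp1 σ t ht] at hσ
        by_cases h2 : σ = τ'
        · subst h2
          rw [hv1 σ t' ht'] at hσ
          subst hσ
          exact hne rfl
        · have e2 := hv2 τ' t' ht' σ h2
          rw [← hσ, sub_zero] at e2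
          have e3 := hres σ t ht
          rw [Int.emod_eq_zero_of_dvd e2] at e3
          omega
      · have e1 := hp2 τ t ht σ h1
        have hm2 : (2 : ℤ) < m σ := by exact_mod_cast hthree σ
        have e1' : coord σ (p τ t) % (m σ : ℤ) = 1 := by
          have := (Int.emod_emod_of_dvd (coord σ (p τ t)) (dvd_refl (m σ : ℤ)))
          have h3 : coord σ (p τ t) % (m σ : ℤ) = 1 % (m σ : ℤ) :=
            Int.emod_eq_emod_iff_emod_sub_eq_zero.2 (Int.emod_eq_zero_of_dvd e1)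
          rw [h3]
          exact Int.emod_eq_of_lt (by omega) (by omega)
        by_cases h2 : σ = τ'
        · subst h2
          rw [hσ, hv1 σ t' ht'] at e1'
          have e3 := hres σ t' ht'
          omega
        · have e2 := hv2 τ' t' ht' σ h2
          rw [sub_zero] at e2
          rw [hσ, Int.emod_eq_zero_of_dvd e2] at e1'
          omega
  · rw [Finset.card_image_of_injOn hinj, Finset.card_sigma]

theorem IR_bdd (n : ℕ) : BddAbove {k : ℕ | ∃ S : Finset (Fin n × Fin n),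
    Irredundant (queens n) S ∧ S.card = k} := by
  refine ⟨6 * n, ?_⟩
  rintro k ⟨S, hS, rfl⟩
  exact card_le S hS

theorem IR_le (n : ℕ) : IR (queens n) ≤ 6 * n := by
  unfold IR
  have hne : {k : ℕ | ∃ S : Finset (Fin n × Fin n),
      Irredundant (queens n) S ∧ S.card = k}.Nonempty :=
    ⟨0, ∅, fun v hv => absurd hv (Finset.notMem_empty v), rfl⟩
  refine csSup_le hne ?_
  rintro k ⟨S, hS, rfl⟩
  exact card_le S hS

theorem IR_ge (q : ℕ) (hq : 2 < q) : ∃ C : ℝ, ∀ n : ℕ,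
    (6 - 12 / (q : ℝ)) * n - C ≤ (IR (queens n) : ℝ) := by
  obtain ⟨a, ha, hap⟩ := Nat.exists_infinite_primes (q + 1)
  obtain ⟨b, hb, hbp⟩ := Nat.exists_infinite_primes (a + 1)
  obtain ⟨c, hc, hcp⟩ := Nat.exists_infinite_primes (b + 1)
  obtain ⟨d, hd, hdp⟩ := Nat.exists_infinite_primes (c + 1)
  set m : Fin 4 → ℕ := ![a, b, c, d] with hm
  have hprime : ∀ i, (m i).Prime := by
    intro i; fin_cases i <;> simp [hm, hap, hbp, hcp, hdp]
  have hgt : ∀ i, q < m i := by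
    intro i; fin_cases i <;> simp [hm] <;> omega
  have hinj : ∀ i j, i ≠ j → m i ≠ m j := by
    intro i j hij
    fin_cases i <;> fin_cases j <;> first | exact absurd rfl hij | (simp [hm]; omega)
  have hodd : ∀ i, m i % 2 = 1 := by
    intro i
    rcases (hprime i).eq_two_or_odd with h | h
    · have := hgt i; omega
    · exact h
  have hco : ∀ i j, i ≠ j → Nat.Coprime (m i) (m j) := fun i j hij =>
    (Nat.coprime_primes (hprime i) (hprime j)).2 (hinj i j hij)
  set P : ℤ := (m 0 : ℤ) * m 1 * m 2 * m 3 with hP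
  have hP0 : 0 < P := by
    have := (hprime 0).pos; have := (hprime 1).pos
    have := (hprime 2).pos; have := (hprime 3).pos
    rw [hP]; positivity
  have hPr : (0 : ℝ) < (P : ℝ) := by exact_mod_cast hP0
  have hqr : (2 : ℝ) < (q : ℝ) := by exact_mod_cast hq
  refine ⟨6 * P + 8, fun n => ?_⟩
  by_cases hn : P ≤ n
  · obtain ⟨S, hS, hcard⟩ := construct m (fun i => by have := hgt i; omega) hodd hco P hP n hn
    have hle : S.card ≤ IR (queens n) := le_csSup (IR_bdd n) ⟨S, hS, rfl⟩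
    have hle' : (S.card : ℝ) ≤ (IR (queens n) : ℝ) := by exact_mod_cast hle
    refine le_trans ?_ hle'
    rw [hcard]
    push_cast
    have hnr : (P : ℝ) ≤ n := by exact_mod_cast hn
    have hcount : ∀ τ : Fin 4, ((hi n P τ : ℝ) - lo n P τ) -
        2 * (((hi n P τ : ℝ) - lo n P τ) / (q : ℝ) + 1) ≤
        (((Finset.Ico (lo n P τ) (hi n P τ)).filter (fun t => 2 ≤ t % (m τ : ℤ))).card : ℝ) := by
      intro τ
      have hAB : lo n P τ ≤ hi n P τ := by
        fin_cases τ <;> simp only [lo, hi] <;> omega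
      have h3 : (2 : ℤ) < m τ := by have := hgt τ; omega
      refine le_trans ?_ (count_good (m τ : ℤ) h3 _ _ hAB)
      have hABr : (0 : ℝ) ≤ (hi n P τ : ℝ) - lo n P τ := by
        have : (lo n P τ : ℝ) ≤ hi n P τ := by exact_mod_cast hAB
        linarith
      have hmq : (q : ℝ) ≤ ((m τ : ℤ) : ℝ) := by
        have := (hgt τ).le
        push_cast
        exact_mod_cast this
      have := div_le_div_of_nonneg_left hABr (by linarith : (0 : ℝ) < q) hmq
      linarith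
    rw [Fin.sum_univ_four]
    have c0 := hcount 0
    have c1 := hcount 1
    have c2 := hcount 2
    have c3 := hcount 3
    have u0 : ((hi n P 0 : ℤ) : ℝ) = n := by simp [hi]
    have u1 : ((hi n P 1 : ℤ) : ℝ) = n := by simp [hi]
    have u2 : ((hi n P 2 : ℤ) : ℝ) = n - P := by simp [hi]
    have u3 : ((hi n P 3 : ℤ) : ℝ) = 2 * n - P := by simp [hi]
    have l0 : ((lo n P 0 : ℤ) : ℝ) = 0 := by simp [lo]
    have l1 : ((lo n P 1 : ℤ) : ℝ) = 0 := by simp [lo]
    have l2 : ((lo n P 2 : ℤ) : ℝ) = P - n := by simp [lo]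
    have l3 : ((lo n P 3 : ℤ) : ℝ) = P := by simp [lo]
    rw [u0, l0] at c0
    rw [u1, l1] at c1
    rw [u2, l2] at c2
    rw [u3, l3] at c3
    have key : (6 - 12 / (q : ℝ)) * n - (6 * P + 8) ≤
        ((n : ℝ) - 0 - 2 * (((n : ℝ) - 0) / q + 1)) + ((n : ℝ) - 0 - 2 * (((n : ℝ) - 0) / q + 1)) +
        ((n : ℝ) - P - (P - n) - 2 * (((n : ℝ) - P - (P - n)) / q + 1)) +
        (2 * (n : ℝ) - P - P - 2 * ((2 * (n : ℝ) - P - P) / q + 1)) := by
      have hq0 : (q : ℝ) ≠ 0 := by linarith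
      have hPq : 0 ≤ (P : ℝ) / q := div_nonneg hPr.le (by linarith)
      have e : ((n : ℝ) - 0 - 2 * (((n : ℝ) - 0) / q + 1)) + ((n : ℝ) - 0 - 2 * (((n : ℝ) - 0) / q + 1)) +
        ((n : ℝ) - P - (P - n) - 2 * (((n : ℝ) - P - (P - n)) / q + 1)) +
        (2 * (n : ℝ) - P - P - 2 * ((2 * (n : ℝ) - P - P) / q + 1))
        = (6 - 12 / (q : ℝ)) * n - 4 * P - 8 + 8 * (P / q) := by
        field_simp
        ring
      rw [e]
      linarith
    linarith
  · push Not at hn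
    have hnr : (n : ℝ) < (P : ℝ) := by exact_mod_cast hn
    have h1 : (6 - 12 / (q : ℝ)) * n ≤ 6 * n := by
      have : 0 ≤ 12 / (q : ℝ) := by positivity
      have hn0 : (0 : ℝ) ≤ n := by positivity
      nlinarith
    have h2 : (0 : ℝ) ≤ (IR (queens n) : ℝ) := by positivity
    linarith

/-- The upper irredundance number of the queens graph satisfies `IR(Q_n) / n → 6`. -/
theorem result :
    Filter.Tendsto (fun n : ℕ => (IR (queens n) : ℝ) / (n : ℝ)) Filter.atTop (nhds 6) := by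
  rw [Metric.tendsto_atTop]
  intro ε hε
  obtain ⟨q0, hq0⟩ := exists_nat_gt (24 / ε)
  set q := q0 + 3 with hq
  obtain ⟨C, hC⟩ := IR_ge q (by omega)
  obtain ⟨N, hN⟩ := exists_nat_gt (2 * |C| / ε)
  refine ⟨N + 1, fun n hn => ?_⟩
  have hnpos : (0 : ℝ) < n := by
    have : 0 < n := by omega
    exact_mod_cast this
  have hqr : 24 / ε < (q : ℝ) := by
    rw [hq]; push_cast; linarith
  have hqpos : (0 : ℝ) < q := lt_trans (by positivity) hqr
  have h12 : 12 / (q : ℝ) < ε / 2 := by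
    rw [div_lt_iff₀ hqpos]
    rw [div_lt_iff₀ hε] at hqr
    nlinarith
  have hup : (IR (queens n) : ℝ) / n ≤ 6 := by
    rw [div_le_iff₀ hnpos]
    exact_mod_cast IR_le n
  have hnN : 2 * |C| / ε < (n : ℝ) := by
    have : (N : ℝ) + 1 ≤ n := by exact_mod_cast hn
    linarith
  have hlow : 6 - ε < (IR (queens n) : ℝ) / n := by
    rw [lt_div_iff₀ hnpos]
    have h1 := hC n
    have h2 : C ≤ |C| := le_abs_self C
    rw [div_lt_iff₀ hε] at hnN
    have h3 : 12 / (q : ℝ) * n < ε / 2 * n := mul_lt_mul_of_pos_right h12 hnpos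
    nlinarith
  rw [Real.dist_eq, abs_lt]
  constructor <;> linarith

end Pool.Agent.Results.MP_c18ee8_co.LimitSix
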