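import Mathlib
import Pool.Agent.Results.MP_c18ee8_co.LimitSix

set_option autoImplicit false

namespace Pool.Agent.Results.MP_c18ee8_co.NotFiveN

open Pool.Agent.Results.MP_c18ee8_co.LimitSix

/-- The bound `IR(Q_n) ≤ 5n` fails: it is false for all sufficiently large `n`. -/
theorem result :
    ∃ N : ℕ, ∀ n : ℕ, N ≤ n → 5 * n < IR (queens n) := by
  have h := LimitSix.result
  rw [Metric.tendsto_atTop] at h
  obtain ⟨N, hN⟩ := h 1 one_pos
  refine ⟨N + 1, fun n hn => ?_⟩
  have h1 := hN n (by omega)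
  rw [Real.dist_eq, abs_lt] at h1
  have hnpos : (0 : ℝ) < n := by
    have : 0 < n := by omega
    exact_mod_cast this
  have h2 : (5 : ℝ) < (IR (queens n) : ℝ) / n := by linarith [h1.1]
  rw [lt_div_iff₀ hnpos] at h2
  exact_mod_cast h2

end Pool.Agent.Results.MP_c18ee8_co.NotFiveN
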